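import Pool.Agent.H881R4.Cone
import Pool.Agent.H881R4.Cov

/-!
# Covering shadows: cones and double cones

If `L` covers the shadows of `K` and `K` is a cone or a double cone over any convex base, then
`V(K) ≤ V(L)`.
-/

set_option autoImplicit false

open MeasureTheory
open scoped Pointwise

namespace Pool.Agent.Results.MP_7818d0_gt.ConeCase

/-- convex body: nonempty compact convex set -/
def ConvexBody {n : ℕ} (K : Set (EuclideanSpace ℝ (Fin n))) : Prop :=
  K.Nonempty ∧ IsCompact K ∧ Convex ℝ K

/-- the orthogonal projection of `K` onto the hyperplane `u^⊥` -/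
noncomputable def shadow {n : ℕ} (u : EuclideanSpace ℝ (Fin n))
    (K : Set (EuclideanSpace ℝ (Fin n))) : Set (EuclideanSpace ℝ (Fin n)) :=
  (Submodule.span ℝ {u})ᗮ.starProjection '' K

/-- `L` covers the shadows of `K`: for every unit vector `u` some translate of the shadow of `K`
is contained in the shadow of `L` -/
def CoversShadows {n : ℕ} (K L : Set (EuclideanSpace ℝ (Fin n))) : Prop :=
  ∀ u : EuclideanSpace ℝ (Fin n), ‖u‖ = 1 → ∃ v ∈ (Submodule.span ℝ {u})ᗮ,
    ∀ p ∈ shadow u K, p + v ∈ shadow u L

/-- `K` is a cone or a double cone: the convex hull of a convex base `K0`, contained in the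
hyperplane `⟨ν, x⟩ = c`, and two points `p`, `q` such that the segment from `q` to `p` meets the
base in a point `z` (for `q = z` this is the cone over `K0` with the apex `p`) -/
def IsDoubleCone {n : ℕ} (K : Set (EuclideanSpace ℝ (Fin n))) : Prop :=
  ∃ (K0 : Set (EuclideanSpace ℝ (Fin n))) (p q z ν : EuclideanSpace ℝ (Fin n)) (c : ℝ),
    Convex ℝ K0 ∧ ν ≠ 0 ∧ (∀ k ∈ K0, inner ℝ ν k = c) ∧ z ∈ K0 ∧ z ∈ segment ℝ q p ∧
      K = convexHull ℝ (K0 ∪ {p, q})

/-- **Theorem.** Let `n ≥ 2` and let the convex body `L ⊂ ℝ^n` cover the shadows of the convex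
body `K`. If `K` contains a cone or a double cone `C` then `V(C) ≤ V(L)`. In particular
`V(K) ≤ V(L)` if `K` itself is a cone or a double cone. -/
theorem result (n : ℕ) (hn : 2 ≤ n) (K L C : Set (EuclideanSpace ℝ (Fin n)))
    (_hK : ConvexBody K) (hL : ConvexBody L) (h : CoversShadows K L) (hCK : C ⊆ K)
    (hC : ConvexBody C) (hcone : IsDoubleCone C) : volume.real C ≤ volume.real L := by
  obtain ⟨K0, p, q, z, ν, c, hK0, hν0, hν, hz, hzs, hKe⟩ := hcone
  have h' : Pool.Agent.H881R4.Shadow.Covers C L := by
    have h1 : Pool.Agent.H881R4.Shadow.Covers K L :=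
      Pool.Agent.H881R4.Shadow.covers_of_proj h
    intro u hu
    obtain ⟨v, hv, hcov⟩ := h1 u hu
    exact ⟨v, hv, fun x hx => hcov x (hCK hx)⟩
  unfold Measure.real
  apply ENNReal.toReal_mono hL.2.1.measure_ne_top
  by_cases hpq : (inner ℝ ν p : ℝ) = inner ℝ ν q
  · have hzc : ∀ x ∈ C, (inner ℝ ν x : ℝ) = c := by
      have hqc : (inner ℝ ν q : ℝ) = c := by
        obtain ⟨a, b, _, _, hab, he⟩ := hzs
        have h1 := hν z hz
        rw [← he, inner_add_right, real_inner_smul_right, real_inner_smul_right, hpq,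
          ← add_mul, hab, one_mul] at h1
        exact h1
      have hconv : Convex ℝ {x : EuclideanSpace ℝ (Fin n) | (inner ℝ ν x : ℝ) = c} := by
        intro x hx y hy a b _ _ hab
        change (inner ℝ ν x : ℝ) = c at hx
        change (inner ℝ ν y : ℝ) = c at hy
        change (inner ℝ ν (a • x + b • y) : ℝ) = c
        rw [inner_add_right, real_inner_smul_right, real_inner_smul_right, hx, hy, ← add_mul,
          hab, one_mul]
      intro x hx
      rw [hKe] at hx
      refine convexHull_min ?_ hconv hx
      rintro y (hy | hy | hy)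
      · exact hν y hy
      · rw [hy]
        exact hpq.trans hqc
      · rw [Set.mem_singleton_iff] at hy
        rw [hy]
        exact hqc
    have hsub : C ⊆ z +ᵥ ((Submodule.span ℝ {ν})ᗮ : Set (EuclideanSpace ℝ (Fin n))) := by
      intro x hx
      refine ⟨x - z, ?_, ?_⟩
      · change x - z ∈ (Submodule.span ℝ {ν})ᗮ
        rw [Submodule.mem_orthogonal_singleton_iff_inner_right, inner_sub_right, hzc x hx,
          hν z hz, sub_self]
      · change z + (x - z) = x
        abel
    have h0 : volume C = 0 := by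
      refine measure_mono_null hsub ?_
      rw [measure_vadd]
      apply Measure.addHaar_submodule
      intro htop
      have h1 : ν ∈ (Submodule.span ℝ {ν})ᗮ := by rw [htop]; trivial
      rw [Submodule.mem_orthogonal_singleton_iff_inner_right] at h1
      exact hν0 (inner_self_eq_zero.1 h1)
    rw [h0]
    exact zero_le
  · exact Pool.Agent.H881R4.Shadow.cone hn hC.2.1 hC.2.2 hL.2.1 hL.2.2 h' hK0 hKe hν hz hzs hpq

end Pool.Agent.Results.MP_7818d0_gt.ConeCase
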