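import Mathlib
import Pool.Agent.H703R3.SC1
import Pool.Agent.H703R3.SC3

/-!
# Volume ratio for convex bodies with covering shadows: the bound `(2 n - 1) / (n - 1)`
-/

set_option autoImplicit false
open MeasureTheory Set
open scoped ENNReal RealInnerProductSpace

namespace Pool.Agent.Results.MP_7818d0_gt.ShadowBound

open H703R3.SC

/-- splitting off the first coordinate -/
noncomputable def phi (m : ℕ) : EuclideanSpace ℝ (Fin (m + 1)) ≃ᵐ ℝ × (Fin m → ℝ) :=
  (MeasurableEquiv.toLp 2 (Fin (m + 1) → ℝ)).symm.trans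
    (MeasurableEquiv.piFinSuccAbove (fun _ : Fin (m + 1) => ℝ) 0)

theorem phi_apply (m : ℕ) (x : EuclideanSpace ℝ (Fin (m + 1))) :
    phi m x = (x 0, fun i => x i.succ) := rfl

theorem phi_mp (m : ℕ) : MeasurePreserving (phi m) volume volume :=
  (PiLp.volume_preserving_ofLp (Fin (m + 1))).trans
    (volume_preserving_piFinSuccAbove (fun _ : Fin (m + 1) => ℝ) 0)

theorem phi_vol (m : ℕ) (K : Set (EuclideanSpace ℝ (Fin (m + 1)))) :
    volume (phi m '' K) = volume K := by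
  rw [← (phi_mp m).measure_preimage_equiv, (phi m).injective.preimage_image]

theorem phi_continuous (m : ℕ) : Continuous (phi m) := by
  have : (phi m : EuclideanSpace ℝ (Fin (m + 1)) → ℝ × (Fin m → ℝ)) =
      fun x => (x 0, fun i => x i.succ) := rfl
  rw [this]
  fun_prop

theorem phi_convex (m : ℕ) {K : Set (EuclideanSpace ℝ (Fin (m + 1)))} (h : Convex ℝ K) :
    Convex ℝ (phi m '' K) := by
  refine h.is_linear_image ⟨fun x y => rfl, fun c x => rfl⟩

/-- **Main theorem.** In dimension `n ≥ 2`, if `L` covers the shadows of `K`, then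
`V(K) ≤ ((2 n - 1) / (n - 1)) V(L)`. -/
theorem result (n : ℕ) (hn : 2 ≤ n) (K L : Set (EuclideanSpace ℝ (Fin n)))
    (hK : IsCompact K) (cK : Convex ℝ K) (hL : IsCompact L) (cL : Convex ℝ L)
    (h : CoversShadows L K) :
    volume K ≤ ENNReal.ofReal ((2 * (n : ℝ) - 1) / ((n : ℝ) - 1)) * volume L := by
  obtain ⟨m, rfl⟩ : ∃ m, n = m + 1 := ⟨n - 1, by omega⟩
  have hm : 1 ≤ m := by omega
  have hm0 : (0 : ℝ) < m := by exact_mod_cast hm
  have key := main_ineq hm (hK.image (phi_continuous m)) (phi_convex m cK)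
    (hL.image (phi_continuous m)) (phi_convex m cL) ?_ ?_
  · rw [phi_vol, phi_vol] at key
    convert key using 3
    push_cast
    ring
  · obtain ⟨τ, hτ⟩ := contain (by omega) hL cL h
    refine ⟨-((((m : ℝ) + 1) / m) • phi m τ), ?_⟩
    rintro _ ⟨x, hx, rfl⟩
    refine ⟨phi m (((((m + 1 : ℕ) : ℝ) - 1) / ((m + 1 : ℕ) : ℝ)) • x + τ), ⟨_, hτ x hx, rfl⟩, ?_⟩
    have e : phi m (((((m + 1 : ℕ) : ℝ) - 1) / ((m + 1 : ℕ) : ℝ)) • x + τ) =
        ((((m + 1 : ℕ) : ℝ) - 1) / ((m + 1 : ℕ) : ℝ)) • phi m x + phi m τ := rfl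
    rw [e, smul_add, smul_smul]
    have e2 : (((m : ℝ) + 1) / m) * ((((m + 1 : ℕ) : ℝ) - 1) / ((m + 1 : ℕ) : ℝ)) = 1 := by
      push_cast
      field_simp
      ring
    rw [e2, one_smul]
    abel
  · obtain ⟨v, -, hv⟩ := h (EuclideanSpace.single 0 1) (by simp)
    refine ⟨(phi m v).2, ?_⟩
    rintro _ ⟨x, hx, rfl⟩
    obtain ⟨l, hl, e⟩ := hv _ ⟨x, hx, rfl⟩
    refine ⟨phi m l, ⟨l, hl, rfl⟩, ?_⟩
    have e' := congrArg (fun y : EuclideanSpace ℝ (Fin (m + 1)) => (phi m y).2) e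
    ext i
    have e'' := congrFun e' i
    simpa [phi_apply, proj] using e''

end Pool.Agent.Results.MP_7818d0_gt.ShadowBound
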