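import Pool.Agent.H881R4.Tight

/-!
# Covering shadows: one tight shadow

If `n ≥ 3`, `L` covers the shadows of `K` and for one direction the shadow of `L` is a translate of
the shadow of `K`, then `L` contains a translate of `K`; in particular `V(K) ≤ V(L)`.
-/

set_option autoImplicit false

open MeasureTheory
open scoped Pointwise

namespace Pool.Agent.Results.MP_7818d0_gt.TightShadow

/-- convex body: nonempty compact convex set -/
def ConvexBody {n : ℕ} (K : Set (EuclideanSpace ℝ (Fin n))) : Prop :=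
  K.Nonempty ∧ IsCompact K ∧ Convex ℝ K

/-- the orthogonal projection of `K` onto the hyperplane `u^⊥` -/
noncomputable def shadow {n : ℕ} (u : EuclideanSpace ℝ (Fin n))
    (K : Set (EuclideanSpace ℝ (Fin n))) : Set (EuclideanSpace ℝ (Fin n)) :=
  (Submodule.span ℝ {u})ᗮ.starProjection '' K

/-- `L` covers the shadows of `K`: for every unit vector `u` some translate of the shadow of `K`
is contained in the shadow of `L` -/
def CoversShadows {n : ℕ} (K L : Set (EuclideanSpace ℝ (Fin n))) : Prop :=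
  ∀ u : EuclideanSpace ℝ (Fin n), ‖u‖ = 1 → ∃ v ∈ (Submodule.span ℝ {u})ᗮ,
    ∀ p ∈ shadow u K, p + v ∈ shadow u L

theorem proj_eq {n : ℕ} {u : EuclideanSpace ℝ (Fin n)} (hu : ‖u‖ = 1)
    (x : EuclideanSpace ℝ (Fin n)) :
    (Submodule.span ℝ {u})ᗮ.starProjection x = x - (inner ℝ u x : ℝ) • u := by
  rw [Submodule.starProjection_orthogonal_val, Submodule.starProjection_unit_singleton ℝ hu]

theorem rel_of {n : ℕ} {u x y v : EuclideanSpace ℝ (Fin n)} (hu : ‖u‖ = 1)
    (he : (Submodule.span ℝ {u})ᗮ.starProjection y =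
      (Submodule.span ℝ {u})ᗮ.starProjection x + v) :
    x + v = y + ((inner ℝ u x : ℝ) - inner ℝ u y) • u := by
  rw [proj_eq hu, proj_eq hu] at he
  rw [sub_smul]
  have h1 : y = x - (inner ℝ u x : ℝ) • u + v + (inner ℝ u y : ℝ) • u := by
    rw [← he]; abel
  calc x + v = (x - (inner ℝ u x : ℝ) • u + v + (inner ℝ u y : ℝ) • u) +
        ((inner ℝ u x : ℝ) • u - (inner ℝ u y : ℝ) • u) := by abel
    _ = y + ((inner ℝ u x : ℝ) • u - (inner ℝ u y : ℝ) • u) := by rw [← h1]

/-- **Theorem.** Let `n ≥ 3` and let the convex body `L ⊂ ℝ^n` cover the shadows of the convex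
body `K`. If for one unit vector `u` the shadow of `L` is a translate of the shadow of `K`, then
`L` contains a translate of `K`, and hence `V(K) ≤ V(L)`. -/
theorem result (n : ℕ) (hn : 3 ≤ n) (K L : Set (EuclideanSpace ℝ (Fin n)))
    (hK : ConvexBody K) (hL : ConvexBody L) (h : CoversShadows K L)
    (htight : ∃ u w : EuclideanSpace ℝ (Fin n), ‖u‖ = 1 ∧
      shadow u L = (fun p => p + w) '' shadow u K) :
    (∃ x0 : EuclideanSpace ℝ (Fin n), (fun x => x + x0) '' K ⊆ L) ∧
      volume.real K ≤ volume.real L := by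
  obtain ⟨u, w, hu, hsh⟩ := htight
  have hcov : Pool.Agent.H881R4.Shadow.Covers K L := by
    intro e he
    obtain ⟨v, hv, hcv⟩ := h e he
    refine ⟨v, ?_, ?_⟩
    · rw [real_inner_comm]
      exact (Submodule.mem_orthogonal_singleton_iff_inner_right.1 hv)
    · intro x hx
      obtain ⟨y, hy, hye⟩ := hcv _ ⟨x, hx, rfl⟩
      exact ⟨y, hy, _, rel_of he hye⟩
  have hw1 : ∀ x ∈ K, ∃ y ∈ L, ∃ s : ℝ, x + w = y + s • u := by
    intro x hx
    have h1 : (Submodule.span ℝ {u})ᗮ.starProjection x + w ∈ shadow u L := by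
      rw [hsh]
      exact ⟨_, ⟨x, hx, rfl⟩, rfl⟩
    obtain ⟨y, hy, hye⟩ := h1
    exact ⟨y, hy, _, rel_of hu hye⟩
  have hw2 : ∀ y ∈ L, ∃ x ∈ K, ∃ s : ℝ, x + w = y + s • u := by
    intro y hy
    have h1 : (Submodule.span ℝ {u})ᗮ.starProjection y ∈ (fun p => p + w) '' shadow u K := by
      rw [← hsh]
      exact ⟨y, hy, rfl⟩
    obtain ⟨_, ⟨x, hx, rfl⟩, hye⟩ := h1
    exact ⟨x, hx, _, rel_of hu hye.symm⟩
  obtain ⟨x0, hx0⟩ := Pool.Agent.H881R4.Shadow.tight hn hK.2.1 hK.1 hL.2.1 hL.2.2 hL.1 hcov u hu w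
    hw1 hw2
  refine ⟨⟨x0, ?_⟩, ?_⟩
  · rintro _ ⟨k, hk, rfl⟩
    exact hx0 k hk
  · unfold Measure.real
    apply ENNReal.toReal_mono hL.2.1.measure_ne_top
    calc volume K = volume (x0 +ᵥ K) := (measure_vadd _ _ _).symm
      _ ≤ volume L := by
          apply measure_mono
          rintro _ ⟨k, hk, rfl⟩
          change x0 + k ∈ L
          rw [add_comm]
          exact hx0 k hk

end Pool.Agent.Results.MP_7818d0_gt.TightShadow
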