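import Pool.Agent.H881R4.Zonoid
import Pool.Agent.H881R4.Cov
import Pool.Agent.H773.Seg

/-!
# Covering shadows: the inequality for zonoids

If `L` covers the shadows of a zonoid `K` in `ℝ^n`, `n ≥ 2`, then `V(K) ≤ (n/(n-1)) V(L)`.
-/

set_option autoImplicit false

open MeasureTheory

namespace Pool.Agent.Results.MP_7818d0_gt.ZonoidCase

/-- convex body: nonempty compact convex set -/
def ConvexBody {n : ℕ} (K : Set (EuclideanSpace ℝ (Fin n))) : Prop :=
  K.Nonempty ∧ IsCompact K ∧ Convex ℝ K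

/-- the orthogonal projection of `K` onto the hyperplane `u^⊥` -/
noncomputable def shadow {n : ℕ} (u : EuclideanSpace ℝ (Fin n))
    (K : Set (EuclideanSpace ℝ (Fin n))) : Set (EuclideanSpace ℝ (Fin n)) :=
  (Submodule.span ℝ {u})ᗮ.starProjection '' K

/-- `L` covers the shadows of `K`: for every unit vector `u` some translate of the shadow of `K`
is contained in the shadow of `L` -/
def CoversShadows {n : ℕ} (K L : Set (EuclideanSpace ℝ (Fin n))) : Prop :=
  ∀ u : EuclideanSpace ℝ (Fin n), ‖u‖ = 1 → ∃ v ∈ (Submodule.span ℝ {u})ᗮ,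
    ∀ p ∈ shadow u K, p + v ∈ shadow u L

/-- the zonotope `c + [0, a 0] + … + [0, a (N - 1)]` -/
def zonotope {n N : ℕ} (c : EuclideanSpace ℝ (Fin n)) (a : Fin N → EuclideanSpace ℝ (Fin n)) :
    Set (EuclideanSpace ℝ (Fin n)) :=
  {x | ∃ t : Fin N → ℝ, (∀ i, 0 ≤ t i ∧ t i ≤ 1) ∧ x = c + ∑ i, t i • a i}

/-- zonoid: a convex body that is a limit of zonotopes in the Hausdorff metric -/
def IsZonoid {n : ℕ} (K : Set (EuclideanSpace ℝ (Fin n))) : Prop :=
  ConvexBody K ∧ ∀ ε : ℝ, 0 < ε → ∃ (N : ℕ) (c : EuclideanSpace ℝ (Fin n))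
    (a : Fin N → EuclideanSpace ℝ (Fin n)), Metric.hausdorffDist K (zonotope c a) < ε

/-- **Theorem.** Let `n ≥ 2`. If the convex body `L ⊂ ℝ^n` covers the shadows of the zonoid `K`
then `V(K) ≤ (n/(n-1)) V(L)`. -/
theorem result (n : ℕ) (hn : 2 ≤ n) (K L : Set (EuclideanSpace ℝ (Fin n)))
    (hK : IsZonoid K) (hL : ConvexBody L) (h : CoversShadows K L) :
    volume.real K ≤ ((n : ℝ) / (n - 1)) * volume.real L :=
  Pool.Agent.H881R4.Shadow.zonoid
    (fun a => Pool.Agent.H773.Shadow.seg n (by omega) a) hn hK.1.2.1 hK.1.1 hL.2.1 hL.2.2 hL.1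
    hK.2 (Pool.Agent.H881R4.Shadow.covers_of_proj h)

end Pool.Agent.Results.MP_7818d0_gt.ZonoidCase
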